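import Pool.Agent.H33.GC.Stm
import Pool.Agent.H13.WC.Cut

/-!
Wandering continua in general position (problem MP_90715c_gt), row 5: the main statement from the
generic frames (row 3) and the loop lemma (row 4).
-/

open Matrix Set Filter Topology MeasureTheory

namespace Pool.Agent.H33.GC

open Pool.Agent.H90.WC

lemma act_tr_sc (β : ℂ) (k : ℕ) (w : ℂ) :
    act (tr β * sc k) (w : OnePoint ℂ) = ((β + w / 4 ^ k : ℂ) : OnePoint ℂ) := by
  have h2 : (2 : ℂ) ^ k ≠ 0 := pow_ne_zero _ two_ne_zero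
  have e4 : (4 : ℂ) ^ k = 2 ^ k * 2 ^ k := by rw [← mul_pow]; norm_num
  have e00 : (tr β * sc k) 0 0 = (1 / 2) ^ k := by
    rw [mul_00]; simp [tr, sc]
  have e01 : (tr β * sc k) 0 1 = β * 2 ^ k := by
    rw [mul_01]; simp [tr, sc]
  have e10 : (tr β * sc k) 1 0 = 0 := by
    rw [mul_10]; simp [tr, sc]
  have e11 : (tr β * sc k) 1 1 = 2 ^ k := by
    rw [mul_11]; simp [tr, sc]
  rw [act_coe_of_ne (by rw [e10, e11]; simp)]
  congr 1
  unfold mob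
  rw [e00, e01, e10, e11, e4, one_div, inv_pow]
  field_simp
  ring

lemma sc_big (g : G) (M : ℝ) :
    ∀ᶠ k : ℕ in atTop, M < ‖(g * sc k) 0 1‖ + ‖(g * sc k) 1 1‖ := by
  have h0 : 0 < ‖g 0 1‖ + ‖g 1 1‖ := by
    rcases eq_or_ne (g 1 1) 0 with h | h
    · have h' : g 0 1 ≠ 0 := by
        intro h'
        have := det_eq g
        rw [h, h'] at this
        simp at this
      have := norm_pos_iff.2 h'
      have := norm_nonneg (g 1 1)
      linarith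
    · have := norm_pos_iff.2 h
      have := norm_nonneg (g 0 1)
      linarith
  have ht : Tendsto (fun k : ℕ => (‖g 0 1‖ + ‖g 1 1‖) * (2 : ℝ) ^ k) atTop atTop :=
    Tendsto.const_mul_atTop h0 (tendsto_pow_atTop_atTop_of_one_lt (by norm_num))
  filter_upwards [ht.eventually_gt_atTop M] with k hk
  have e01 : (g * sc k) 0 1 = g 0 1 * 2 ^ k := by
    rw [mul_01]; simp [sc]
  have e11 : (g * sc k) 1 1 = g 1 1 * 2 ^ k := by
    rw [mul_11]; simp [sc]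
  rw [e01, e11, norm_mul, norm_mul, norm_pow]
  have : ‖(2 : ℂ)‖ = 2 := by simp
  rw [this, ← add_mul]
  exact hk

/-- Frames close to the affine map `w ↦ p + q w`, avoiding a finite set. -/
lemma frame {Γ : Subgroup G} {b : ℕ → ℂ} {b0 β : ℂ}
    (hg : ∀ f : G, ∀ V ∈ 𝓝 f, ∀ ε > (0 : ℝ), ∀ T : ℕ, ∃ k > T, ‖b k - b0‖ < ε ∧
      ∃ γ ∈ Γ, γ * tr β * sc k ∈ V) (p q : ℂ) (hq : q ≠ 0) {δ : ℝ} (hδ : 0 < δ) (T : ℕ)
    {F : Set G} (hF : F.Finite) :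
    ∃ k > T, ‖b k - b0‖ < δ ∧ ∃ γ ∈ Γ, γ ∉ F ∧ ∀ w : ℂ, ‖w‖ ≤ 1 →
      γ 1 0 * (β + w / 4 ^ k) + γ 1 1 ≠ 0 ∧ ‖mob γ (β + w / 4 ^ k) - (p + q * w)‖ ≤ δ := by
  obtain ⟨s, hs⟩ := IsAlgClosed.exists_pow_nat_eq q (n := 2) (by norm_num)
  have hs0 : s ≠ 0 := by
    rintro rfl
    apply hq
    rw [← hs]; simp
  let f : G := ⟨!![s, p / s; 0, 1 / s], by
    rw [Matrix.det_fin_two_of]
    field_simp
    simp⟩
  have hf : ∀ w : ℂ, act f (w : OnePoint ℂ) = ((p + q * w : ℂ) : OnePoint ℂ) := by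
    intro w
    have e00 : f 0 0 = s := rfl
    have e01 : f 0 1 = p / s := rfl
    have e10 : f 1 0 = 0 := rfl
    have e11 : f 1 1 = 1 / s := rfl
    rw [act_coe_of_ne (by rw [e10, e11]; simp [hs0])]
    congr 1
    unfold mob
    rw [e00, e01, e10, e11, ← hs]
    field_simp
    ring
  have hN := mob_near_one (‖p‖ + ‖q‖) hδ
  set M : ℝ := ‖f 0 1‖ + ‖f 1 1‖ + 1 with hM
  have hV1 : ∀ᶠ g in 𝓝 f, ∀ w : ℂ, ‖w‖ ≤ ‖p‖ + ‖q‖ →
      (g * f⁻¹) 1 0 * w + (g * f⁻¹) 1 1 ≠ 0 ∧ ‖mob (g * f⁻¹) w - w‖ ≤ δ := by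
    have ht : Tendsto (fun g : G => g * f⁻¹) (𝓝 f) (𝓝 1) := by
      have : Tendsto (fun g : G => g * f⁻¹) (𝓝 f) (𝓝 (f * f⁻¹)) :=
        (continuous_mul_const f⁻¹).tendsto f
      rwa [mul_inv_cancel] at this
    exact ht.eventually hN
  have hV2 : ∀ᶠ g : G in 𝓝 f, ‖g 0 1‖ + ‖g 1 1‖ < M := by
    have hc : Continuous fun g : G => ‖g 0 1‖ + ‖g 1 1‖ :=
      (continuous_entry 0 1).norm.add (continuous_entry 1 1).norm
    exact (hc.tendsto f).eventually (gt_mem_nhds (by rw [hM]; linarith))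
  have hT : ∀ᶠ k : ℕ in atTop, ∀ γ ∈ F, M < ‖(γ * tr β * sc k) 0 1‖ +
      ‖(γ * tr β * sc k) 1 1‖ :=
    (hF.eventually_all).2 fun γ _ => sc_big (γ * tr β) M
  obtain ⟨T1, hT1⟩ := eventually_atTop.1 hT
  obtain ⟨k, hk, hbk, γ, hγ, hV⟩ := hg f _ (hV1.and hV2) δ hδ (max T T1)
  obtain ⟨h1, h2⟩ := hV
  refine ⟨k, lt_of_le_of_lt (le_max_left _ _) hk, hbk, γ, hγ, ?_, ?_⟩
  · intro hmem
    have := hT1 k (le_of_lt (lt_of_le_of_lt (le_max_right _ _) hk)) γ hmem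
    linarith
  · intro w hw
    have hpw : ‖p + q * w‖ ≤ ‖p‖ + ‖q‖ := by
      refine (norm_add_le _ _).trans ?_
      rw [norm_mul]
      have := mul_le_mul_of_nonneg_left hw (norm_nonneg q)
      linarith
    obtain ⟨g1, g2⟩ := h1 (p + q * w) hpw
    have key : act γ ((β + w / 4 ^ k : ℂ) : OnePoint ℂ) =
        ((mob (γ * tr β * sc k * f⁻¹) (p + q * w) : ℂ) : OnePoint ℂ) := by
      rw [← act_coe_of_ne g1, ← hf, ← act_mul, inv_mul_cancel_right, ← act_tr_sc, ← act_mul,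
        mul_assoc]
    by_cases hz : γ 1 0 * (β + w / 4 ^ k) + γ 1 1 = 0
    · rw [act_coe_of_eq hz] at key
      exact absurd key (OnePoint.infty_ne_coe _)
    · refine ⟨hz, ?_⟩
      rw [act_coe_of_ne hz] at key
      rw [OnePoint.coe_injective key]
      exact g2

lemma norm_ze : ‖ze‖ = 1 := by
  unfold ze
  exact Complex.norm_exp_ofReal_mul_I _

lemma norm_ze_sub : ‖ze - 1‖ ≤ 77 / 100 := by
  have h1 : ‖ze - 1‖ ^ 2 = 2 - Real.sqrt 2 := by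
    have e : ze = (Real.sqrt 2 / 2 : ℝ) + (Real.sqrt 2 / 2 : ℝ) * Complex.I := by
      unfold ze
      rw [Complex.exp_mul_I, ← Complex.ofReal_cos, ← Complex.ofReal_sin, Real.cos_pi_div_four,
        Real.sin_pi_div_four]
    rw [e, ← Complex.normSq_eq_norm_sq, Complex.normSq_apply]
    have hs : Real.sqrt 2 * Real.sqrt 2 = 2 := Real.mul_self_sqrt (by norm_num)
    simp
    nlinarith
  have h2 : (1.4141 : ℝ) ≤ Real.sqrt 2 := by
    apply Real.le_sqrt_of_sq_le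
    norm_num
  have h3 : ‖ze - 1‖ ^ 2 ≤ (77 / 100) ^ 2 := by rw [h1]; nlinarith
  exact (sq_le_sq₀ (norm_nonneg _) (by norm_num)).1 h3

lemma norm_ze_pow (i : ℕ) : ‖ze ^ i‖ = 1 := by rw [norm_pow, norm_ze, one_pow]

lemma norm_ze_step (i : ℕ) : ‖ze ^ (i + 1) - ze ^ i‖ ≤ 77 / 100 := by
  have : ze ^ (i + 1) - ze ^ i = ze ^ i * (ze - 1) := by ring
  rw [this, norm_mul, norm_ze_pow, one_mul]
  exact norm_ze_sub

lemma ze_ne_one : ze - 1 ≠ 0 := by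
  intro h
  have e : ze = (Real.sqrt 2 / 2 : ℝ) + (Real.sqrt 2 / 2 : ℝ) * Complex.I := by
    unfold ze
    rw [Complex.exp_mul_I, ← Complex.ofReal_cos, ← Complex.ofReal_sin, Real.cos_pi_div_four,
      Real.sin_pi_div_four]
  have h2 : (ze - 1).im = 0 := by rw [h]; simp
  rw [e] at h2
  simp at h2

lemma ze_step_ne (i : ℕ) : ze ^ (i + 1) - ze ^ i ≠ 0 := by
  have e : ze ^ (i + 1) - ze ^ i = ze ^ i * (ze - 1) := by ring
  rw [e]
  refine mul_ne_zero (pow_ne_zero _ ?_) ze_ne_one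
  intro h
  have := norm_ze
  rw [h] at this
  simp at this

/-- The image of a planar continuum under a translate of a Moebius map with finite values. -/
lemma img {γ : G} {β : ℂ} {κ : Set ℂ} (hc : IsCompact κ) (hp : IsPreconnected κ)
    (hne : ∀ x ∈ κ, γ 1 0 * (x + β) + γ 1 1 ≠ 0) :
    IsCompact ((fun x : ℂ => mob γ (x + β)) '' κ) ∧
      IsPreconnected ((fun x : ℂ => mob γ (x + β)) '' κ) := by
  have hcont : ContinuousOn (fun x : ℂ => mob γ (x + β)) κ := by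
    unfold mob
    exact ContinuousOn.div (by fun_prop) (by fun_prop) hne
  exact ⟨hc.image_of_continuousOn hcont, hp.image _ hcont⟩

/-- At most one translate up to sign contains a given point of the sphere. -/
lemma avoid {Γ : Subgroup G} {L : Set (OnePoint ℂ)}
    (hd : ∀ γ ∈ Γ, ∀ γ' ∈ Γ, γ' ≠ γ → γ' ≠ -γ → ∀ x ∈ L, ∀ y ∈ L, act γ x ≠ act γ' y)
    (p : OnePoint ℂ) :
    ∃ F : Set G, F.Finite ∧ ∀ γ ∈ Γ, γ ∉ F → ∀ x ∈ L, act γ x ≠ p := by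
  by_cases h : ∃ γ ∈ Γ, ∃ x ∈ L, act γ x = p
  · obtain ⟨γ, hγ, x, hx, hxp⟩ := h
    refine ⟨{γ, -γ}, (Set.finite_singleton _).insert _, fun γ' hγ' hF y hy hyp => ?_⟩
    simp only [mem_insert_iff, mem_singleton_iff, not_or] at hF
    exact hd γ hγ γ' hγ' hF.1 hF.2 x hx y hy (hxp.trans hyp.symm)
  · exact ⟨∅, Set.finite_empty, fun γ hγ _ x hx hxp => h ⟨γ, hγ, x, hx, hxp⟩⟩

theorem main_of (hG : GenStmt) (hL : LoopStmt) : MainStmt := by
  intro Γ _ _ K hK hKc hKn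
  obtain ⟨x0, hx0, x1, hx1, hx01⟩ := hKn
  have hR : 0 < dist x0 x1 := dist_pos.2 hx01
  -- boundary bumping at the scale `4 ^ (-k)`
  have hb : ∀ k : ℕ, ∃ b : ℂ, ‖b‖ = 1 ∧ ((1 / 4 : ℝ) ^ k ≤ dist x0 x1 → ∃ κ ⊆ K, IsCompact κ ∧
      IsPreconnected κ ∧ x0 ∈ κ ∧ (∀ z ∈ κ, dist x0 z ≤ (1 / 4 : ℝ) ^ k) ∧
      x0 + b / 4 ^ k ∈ κ) := by
    intro k
    by_cases h : (1 / 4 : ℝ) ^ k ≤ dist x0 x1
    · obtain ⟨κ, hκK, h1, h2, h3, h4, y, hy, hy'⟩ := bump hK hKc.isPreconnected hx0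
        (r := (1 / 4 : ℝ) ^ k) (by positivity) ⟨x1, hx1, h⟩
      have h4k : (4 : ℂ) ^ k ≠ 0 := pow_ne_zero _ (by norm_num)
      refine ⟨(y - x0) * 4 ^ k, ?_, fun _ => ⟨κ, hκK, h1, h2, h3, h4, ?_⟩⟩
      · rw [norm_mul, ← dist_eq_norm, dist_comm, hy', norm_pow]
        have : ‖(4 : ℂ)‖ = 4 := by simp
        rw [this, ← mul_pow]
        norm_num
      · rw [mul_div_cancel_right₀ _ h4k]
        simpa using hy
    · exact ⟨1, by simp, fun h' => absurd h' h⟩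
  choose b hb1 hb2 using hb
  obtain ⟨b0, hb0, E, hE1, hE2, hE⟩ := hG Γ b hb1
  have hb0' : b0 ≠ 0 := by
    rintro rfl
    simp at hb0
  refine ⟨(fun β : ℂ => β + x0) ⁻¹' E, ?_, ?_, ?_⟩
  · exact hE1.preimage_of_isOpenMap (continuous_add_const x0) (isOpenMap_add_right x0)
  · rw [measure_preimage_add_right]
    exact hE2
  intro β hβ
  by_contra hcon
  have hW : ∀ γ ∈ Γ, γ ≠ 1 → γ ≠ -1 → ∀ x ∈ K, ∀ y ∈ K,
      act γ ((x + β : ℂ) : OnePoint ℂ) ≠ ((y + β : ℂ) : OnePoint ℂ) :=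
    fun γ hγ h1 h2 x hx y hy h => hcon ⟨γ, hγ, h1, h2, x, hx, y, hy, h⟩
  set L : Set (OnePoint ℂ) := (fun x : ℂ => ((x + β : ℂ) : OnePoint ℂ)) '' K with hLdef
  have hd : ∀ γ ∈ Γ, ∀ γ' ∈ Γ, γ' ≠ γ → γ' ≠ -γ → ∀ x ∈ L, ∀ y ∈ L, act γ x ≠ act γ' y := by
    rintro γ hγ γ' hγ' h1 h2 _ ⟨x, hx, rfl⟩ _ ⟨y, hy, rfl⟩ h
    refine hW (γ⁻¹ * γ') (Γ.mul_mem (Γ.inv_mem hγ) hγ') ?_ ?_ y hy x hx ?_
    · intro e
      exact h1 (by rw [inv_mul_eq_one] at e; exact e.symm)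
    · intro e
      apply h2
      have : γ' = γ * (-1) := by rw [← e]; group
      rw [this]; simp
    · rw [act_mul, ← h, act_inv_act]
  have hg := hE (β + x0) hβ
  -- the points to be avoided
  have hav : ∀ i : ℕ, ∃ F : Set G, F.Finite ∧ ∀ γ ∈ Γ, γ ∉ F → ∀ x ∈ L,
      act γ x ≠ ((ze ^ i : ℂ) : OnePoint ℂ) := fun i => avoid hd _
  choose Fi hFi1 hFi2 using hav
  obtain ⟨F0, hF01, hF02⟩ := avoid hd OnePoint.infty
  have hFfin : (F0 ∪ ⋃ i ∈ Set.Iio 8, Fi i).Finite :=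
    hF01.union ((Set.finite_Iio 8).biUnion fun i _ => hFi1 i)
  -- the index from which the bumps exist
  obtain ⟨k0, hk0⟩ : ∃ k0 : ℕ, ∀ k > k0, (1 / 4 : ℝ) ^ k ≤ dist x0 x1 := by
    have ht : Tendsto (fun k : ℕ => (1 / 4 : ℝ) ^ k) atTop (𝓝 0) :=
      tendsto_pow_atTop_nhds_zero_of_lt_one (by norm_num) (by norm_num)
    obtain ⟨k0, h⟩ := eventually_atTop.1 (ht.eventually (ge_mem_nhds hR))
    exact ⟨k0, fun k hk => h k hk.le⟩
  -- points of `κ` in the frame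
  have hfr : ∀ (k : ℕ) (z : ℂ), dist x0 z ≤ (1 / 4 : ℝ) ^ k → ∃ w : ℂ, ‖w‖ ≤ 1 ∧
      z + β = β + x0 + w / 4 ^ k := by
    intro k z hz
    have h4k : (4 : ℂ) ^ k ≠ 0 := pow_ne_zero _ (by norm_num)
    refine ⟨(z - x0) * 4 ^ k, ?_, ?_⟩
    · rw [norm_mul, norm_pow, ← dist_eq_norm, dist_comm]
      have h4 : ‖(4 : ℂ)‖ = 4 := by simp
      rw [h4]
      calc dist x0 z * 4 ^ k ≤ (1 / 4 : ℝ) ^ k * 4 ^ k := by gcongr
        _ = 1 := by rw [← mul_pow]; norm_num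
    · rw [mul_div_cancel_right₀ _ h4k]; ring
  -- the big translate
  obtain ⟨k', hk', hbk', γ', hγ', hγF, hγw⟩ := frame hg 0 (20 / b0)
    (div_ne_zero (by norm_num) hb0') (δ := 1 / 10) (by norm_num) k0 hFfin
  have hγF0 : γ' ∉ F0 := fun h => hγF (Or.inl h)
  have hγFi : ∀ i < 8, γ' ∉ Fi i := fun i hi h =>
    hγF (Or.inr (mem_iUnion₂.2 ⟨i, hi, h⟩))
  have hne' : ∀ x ∈ K, γ' 1 0 * (x + β) + γ' 1 1 ≠ 0 := by
    intro x hx h
    exact hF02 γ' hγ' hγF0 _ ⟨x, hx, rfl⟩ (act_coe_of_eq h)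
  obtain ⟨hK'c, hK'p⟩ := img hK hKc.isPreconnected hne'
  set K' : Set ℂ := (fun x : ℂ => mob γ' (x + β)) '' K with hK'
  have hK'z : ∀ i < 8, ze ^ i ∉ K' := by
    rintro i hi ⟨x, hx, hxi⟩
    refine hFi2 i γ' hγ' (hγFi i hi) _ ⟨x, hx, rfl⟩ ?_
    change act γ' ((x + β : ℂ) : OnePoint ℂ) = _
    rw [act_coe_of_ne (hne' x hx)]
    exact congrArg _ hxi
  -- the distance
  have hεex : ∀ᶠ ε in 𝓝[>] (0 : ℝ), (∀ i ∈ Set.Iio 8, ∀ z ∈ K', ε < ‖z - ze ^ i‖) ∧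
      ε ≤ 1 / 20 ∧ 0 < ε := by
    refine Eventually.and ?_ (Eventually.and ?_ self_mem_nhdsWithin)
    · refine ((Set.finite_Iio 8).eventually_all).2 fun i hi => ?_
      obtain ⟨e, he, hball⟩ := Metric.isOpen_iff.1 hK'c.isClosed.isOpen_compl (ze ^ i)
        (hK'z i hi)
      filter_upwards [mem_nhdsWithin_of_mem_nhds (gt_mem_nhds he)] with ε hε z hz
      by_contra hlt
      rw [not_lt] at hlt
      have : z ∈ K'ᶜ := hball (by
        rw [Metric.mem_ball, dist_eq_norm]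
        exact lt_of_le_of_lt hlt hε)
      exact this hz
    · exact mem_nhdsWithin_of_mem_nhds (ge_mem_nhds (by norm_num))
  obtain ⟨ε, hε1, hε2, hε0⟩ := hεex.exists
  -- the eight small continua
  have hS : ∀ i : ℕ, ∃ S : Set ℂ, IsCompact S ∧ IsPreconnected S ∧
      (∀ z ∈ S, ‖z - ze ^ i‖ ≤ 4 / 5) ∧ (∃ z ∈ S, ‖z - ze ^ i‖ ≤ ε) ∧
      (∃ z ∈ S, ‖z - ze ^ (i + 1)‖ ≤ ε) ∧ Disjoint S K' := by
    intro i
    have hδ0 : 0 < min (ε / 2) (1 / 40) := lt_min (by linarith) (by norm_num)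
    have hδ1 : min (ε / 2) (1 / 40) ≤ ε / 2 := min_le_left _ _
    have hδ2 : min (ε / 2) (1 / 40 : ℝ) ≤ 1 / 40 := min_le_right _ _
    set δ : ℝ := min (ε / 2) (1 / 40) with hδ
    set c : ℂ := ze ^ (i + 1) - ze ^ i with hc
    have hc1 : ‖c‖ ≤ 77 / 100 := norm_ze_step i
    obtain ⟨k, hk, hbk, γ, hγ, hγF', hw⟩ := frame hg (ze ^ i) (c / b0)
      (div_ne_zero (ze_step_ne i) hb0') hδ0 k0
      (F := {γ', -γ'}) ((Set.finite_singleton _).insert _)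
    simp only [mem_insert_iff, mem_singleton_iff, not_or] at hγF'
    obtain ⟨κ, hκK, h1, h2, h3, h4, h5⟩ := hb2 k (hk0 k hk)
    have hκne : ∀ x ∈ κ, γ 1 0 * (x + β) + γ 1 1 ≠ 0 := by
      intro x hx
      obtain ⟨w, hw1, hw2⟩ := hfr k x (h4 x hx)
      rw [hw2]
      exact (hw w hw1).1
    obtain ⟨hc', hp'⟩ := img h1 h2 hκne
    refine ⟨_, hc', hp', ?_, ?_, ?_, ?_⟩
    · rintro _ ⟨x, hx, rfl⟩
      obtain ⟨w, hw1, hw2⟩ := hfr k x (h4 x hx)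
      change ‖mob γ (x + β) - ze ^ i‖ ≤ 4 / 5
      rw [hw2]
      have e1 := (hw w hw1).2
      have e2 : ‖c / b0 * w‖ ≤ 77 / 100 := by
        rw [norm_mul, norm_div, hb0, div_one]
        calc ‖c‖ * ‖w‖ ≤ 77 / 100 * 1 := by gcongr
          _ = 77 / 100 := by norm_num
      calc ‖mob γ (β + x0 + w / 4 ^ k) - ze ^ i‖
          = ‖(mob γ (β + x0 + w / 4 ^ k) - (ze ^ i + c / b0 * w)) + c / b0 * w‖ := by
            congr 1; ring
        _ ≤ δ + 77 / 100 := (norm_add_le _ _).trans (add_le_add e1 e2)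
        _ ≤ 4 / 5 := by linarith
    · refine ⟨mob γ (x0 + β), ⟨x0, h3, rfl⟩, ?_⟩
      have e1 := (hw 0 (by simp)).2
      simp only [zero_div, add_zero, mul_zero] at e1
      rw [add_comm x0 β]
      linarith
    · refine ⟨mob γ (x0 + b k / 4 ^ k + β), ⟨_, h5, rfl⟩, ?_⟩
      have e1 := (hw (b k) (hb1 k).le).2
      have e0 : x0 + b k / 4 ^ k + β = β + x0 + b k / 4 ^ k := by ring
      rw [e0]
      have e2 : ‖c / b0 * (b k - b0)‖ ≤ δ := by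
        rw [norm_mul, norm_div, hb0, div_one]
        calc ‖c‖ * ‖b k - b0‖ ≤ 1 * δ := by
              apply mul_le_mul (by linarith) hbk.le (norm_nonneg _) (by norm_num)
          _ = δ := one_mul _
      have e3 : mob γ (β + x0 + b k / 4 ^ k) - ze ^ (i + 1) =
          (mob γ (β + x0 + b k / 4 ^ k) - (ze ^ i + c / b0 * b k)) + c / b0 * (b k - b0) := by
        have : c / b0 * (b k - b0) = c / b0 * b k - c := by
          field_simp
        rw [this, hc]; ring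
      rw [e3]
      calc _ ≤ δ + δ := (norm_add_le _ _).trans (add_le_add e1 e2)
        _ ≤ ε := by linarith
    · rw [Set.disjoint_left]
      rintro _ ⟨x, hx, rfl⟩ ⟨y, hy, hxy⟩
      refine hd γ hγ γ' hγ' (Ne.symm hγF'.1) ?_ _ ⟨x, hκK hx, rfl⟩ _ ⟨y, hy, rfl⟩ ?_
      · intro h
        apply hγF'.2
        rw [h, neg_neg]
      · change act γ ((x + β : ℂ) : OnePoint ℂ) = act γ' ((y + β : ℂ) : OnePoint ℂ)
        rw [act_coe_of_ne (hκne x hx), act_coe_of_ne (hne' y hy)]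
        exact congrArg _ hxy.symm
  choose S hS1 hS2 hS3 hS4 hS5 hS6 using hS
  -- the two points of the big translate
  obtain ⟨κ, hκK, -, -, -, -, h5⟩ := hb2 k' (hk0 k' hk')
  refine hL K' (mob γ' (x0 + β)) (mob γ' (x0 + b k' / 4 ^ k' + β)) ε S hK'c hK'p
    ⟨x0, hx0, rfl⟩ ⟨_, hκK h5, rfl⟩ ?_ ?_ hε0 hε2
    (fun i _ => ⟨hS1 i, hS2 i, hS3 i, hS4 i, hS5 i, hS6 i⟩) (fun i hi z hz => hε1 i hi z hz)
  · have e1 := (hγw 0 (by simp)).2
    simp only [zero_div, add_zero, mul_zero, sub_zero] at e1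
    rw [add_comm x0 β]
    exact e1
  · have e1 := (hγw (b k') (hb1 k').le).2
    have e0 : x0 + b k' / 4 ^ k' + β = β + x0 + b k' / 4 ^ k' := by ring
    rw [e0]
    have e2 : ‖(0 : ℂ) + 20 / b0 * b k'‖ = 20 := by
      rw [zero_add, norm_mul, norm_div, hb0, hb1]
      simp
    have e3 := norm_sub_norm_le ((0 : ℂ) + 20 / b0 * b k') (mob γ' (β + x0 + b k' / 4 ^ k'))
    rw [norm_sub_rev, e2] at e3
    linarith

end Pool.Agent.H33.GC
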